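import Pool.Agent.Helper97.CB.Defs

/-! # Project KD: existence of Delaunay triangles (exchange), disjointness -/

set_option autoImplicit false

open MeasureTheory Set

namespace Pool.Agent.Helper88.KD

open Helper97.CB

theorem cr_swap (a b c : ℂ) : cr (b - c) (a - c) = -cr (a - c) (b - c) := by
  simp only [cr]; ring

theorem cr_cyc (a b c : ℂ) : cr (c - b) (a - b) = cr (b - a) (c - a) := by
  simp only [cr, Complex.sub_re, Complex.sub_im]; ring

/-- affine functions at barycentric combinations -/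
theorem aff_comb {p q r α β γ : ℝ} {a b c x : ℂ} (hs : α + β + γ = 1)
    (hx : x = α • a + β • b + γ • c) :
    p + q * x.re + r * x.im = α * (p + q * a.re + r * a.im) + β * (p + q * b.re + r * b.im) +
      γ * (p + q * c.re + r * c.im) := by
  have h1 : x.re = α * a.re + β * b.re + γ * c.re := by rw [hx]; simp
  have h2 : x.im = α * a.im + β * b.im + γ * c.im := by rw [hx]; simp
  rw [h1, h2]
  linear_combination (-p) * hs

/-- interpolation -/
theorem exists_aff {a b c : ℂ} (hD : cr (b - a) (c - a) ≠ 0) (u v w : ℝ) :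
    ∃ p q r : ℝ, p + q * a.re + r * a.im = u ∧ p + q * b.re + r * b.im = v ∧
      p + q * c.re + r * c.im = w := by
  set D := cr (b - a) (c - a) with hDd
  have hD' : D = (b.re - a.re) * (c.im - a.im) - (b.im - a.im) * (c.re - a.re) := by
    rw [hDd]; simp only [cr, Complex.sub_re, Complex.sub_im]
  refine ⟨u - ((v - u) * (c.im - a.im) - (w - u) * (b.im - a.im)) / D * a.re -
    ((w - u) * (b.re - a.re) - (v - u) * (c.re - a.re)) / D * a.im,
    ((v - u) * (c.im - a.im) - (w - u) * (b.im - a.im)) / D,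
    ((w - u) * (b.re - a.re) - (v - u) * (c.re - a.re)) / D, ?_, ?_, ?_⟩
  · ring
  · field_simp
    rw [hD']; ring
  · field_simp
    rw [hD']; ring

/-- barycentric coordinates exist -/
theorem exists_bary {a b c : ℂ} (hD : cr (b - a) (c - a) ≠ 0) (d : ℂ) :
    ∃ α β γ : ℝ, α + β + γ = 1 ∧ d = α • a + β • b + γ • c := by
  set D := cr (b - a) (c - a) with hDd
  have hD' : D = (b.re - a.re) * (c.im - a.im) - (b.im - a.im) * (c.re - a.re) := by
    rw [hDd]; simp only [cr, Complex.sub_re, Complex.sub_im]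
  refine ⟨1 - cr (d - a) (c - a) / D - cr (b - a) (d - a) / D, cr (d - a) (c - a) / D,
    cr (b - a) (d - a) / D, by ring, ?_⟩
  apply Complex.ext
  · simp only [Complex.add_re, Complex.smul_re, smul_eq_mul]
    field_simp
    rw [hD']
    simp only [cr, Complex.sub_re, Complex.sub_im]; ring
  · simp only [Complex.add_im, Complex.smul_im, smul_eq_mul]
    field_simp
    rw [hD']
    simp only [cr, Complex.sub_re, Complex.sub_im]; ring

/-- barycentric coordinates are unique -/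
theorem bary_unique {a b c x : ℂ} (hD : cr (b - a) (c - a) ≠ 0) {α β γ α' β' γ' : ℝ}
    (hs : α + β + γ = 1) (hx : x = α • a + β • b + γ • c) (hs' : α' + β' + γ' = 1)
    (hx' : x = α' • a + β' • b + γ' • c) : α = α' ∧ β = β' ∧ γ = γ' := by
  obtain ⟨p, q, r, h1, h2, h3⟩ := exists_aff hD 1 0 0
  obtain ⟨p', q', r', h1', h2', h3'⟩ := exists_aff hD 0 1 0
  have e1 := aff_comb (p := p) (q := q) (r := r) hs hx
  have e1' := aff_comb (p := p) (q := q) (r := r) hs' hx'
  have e2 := aff_comb (p := p') (q := q') (r := r') hs hx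
  have e2' := aff_comb (p := p') (q := q') (r := r') hs' hx'
  rw [h1, h2, h3] at e1 e1'
  rw [h1', h2', h3'] at e2 e2'
  have ea : α = α' := by linarith
  have eb : β = β' := by linarith
  exact ⟨ea, eb, by linarith⟩

/-- one exchange step -/
theorem step {S : Finset ℂ} {g : ℂ → ℝ} {x : ℂ}
    (hgen : ∀ a ∈ S, ∀ b ∈ S, a ≠ b → cr (b - a) (x - a) ≠ 0) {V : ℝ}
    (hmin : ∀ a ∈ S, ∀ b ∈ S, ∀ c ∈ S, cr (b - a) (c - a) ≠ 0 → ∀ α β γ : ℝ, 0 ≤ α → 0 ≤ β →
      0 ≤ γ → α + β + γ = 1 → x = α • a + β • b + γ • c → V ≤ α * g a + β * g b + γ * g c)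
    {a b c : ℂ} (hb : b ∈ S) (hc : c ∈ S) (hD : cr (b - a) (c - a) ≠ 0)
    {α β γ : ℝ} (hα : 0 < α) (hs : α + β + γ = 1)
    (hx : x = α • a + β • b + γ • c) (hV : α * g a + β * g b + γ * g c = V)
    {d : ℂ} (hd : d ∈ S) {α' β' γ' : ℝ} (hs' : α' + β' + γ' = 1)
    (hd' : d = α' • a + β' • b + γ' • c) (hlt : g d < α' * g a + β' * g b + γ' * g c)
    (h1 : 0 < α') (h2 : α * β' ≤ β * α') (h3 : α * γ' ≤ γ * α') : False := by
  set t := α / α' with ht
  have ht0 : 0 < t := div_pos hα h1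
  have htα : t * α' = α := by rw [ht]; field_simp
  have h2' : 0 ≤ β - t * β' := by
    have : t * β' ≤ β := by
      rw [ht, div_mul_eq_mul_div, div_le_iff₀ h1]; exact h2
    linarith
  have h3' : 0 ≤ γ - t * γ' := by
    have : t * γ' ≤ γ := by
      rw [ht, div_mul_eq_mul_div, div_le_iff₀ h1]; exact h3
    linarith
  have hsum : t + (β - t * β') + (γ - t * γ') = 1 := by
    have : t * (α' + β' + γ') = t := by rw [hs', mul_one]
    nlinarith
  have hxr : x.re = α * a.re + β * b.re + γ * c.re := by rw [hx]; simp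
  have hxi : x.im = α * a.im + β * b.im + γ * c.im := by rw [hx]; simp
  have hdr : d.re = α' * a.re + β' * b.re + γ' * c.re := by rw [hd']; simp
  have hdi : d.im = α' * a.im + β' * b.im + γ' * c.im := by rw [hd']; simp
  have hx2 : x = t • d + (β - t * β') • b + (γ - t * γ') • c := by
    apply Complex.ext
    · simp only [Complex.add_re, Complex.smul_re, smul_eq_mul]
      rw [hxr, hdr, ← htα]; ring
    · simp only [Complex.add_im, Complex.smul_im, smul_eq_mul]
      rw [hxi, hdi, ← htα]; ring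
  have hbc : b ≠ c := by
    rintro rfl
    apply hD
    simp only [cr]; ring
  have hD2 : cr (b - d) (c - d) ≠ 0 := by
    intro h0
    apply hgen b hb c hc hbc
    have e1 : cr (c - b) (x - b) = t * cr (b - d) (c - d) := by
      have r1 : x.re = t * d.re + (β - t * β') * b.re + (γ - t * γ') * c.re := by
        conv_lhs => rw [hx2]
        simp
      have r2 : x.im = t * d.im + (β - t * β') * b.im + (γ - t * γ') * c.im := by
        conv_lhs => rw [hx2]
        simp
      simp only [cr, Complex.sub_re, Complex.sub_im]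
      rw [r1, r2]
      have hb1 : β - t * β' = 1 - t - (γ - t * γ') := by linarith
      rw [hb1]; ring
    rw [e1, h0, mul_zero]
  have hle := hmin d hd b hb c hc hD2 t (β - t * β') (γ - t * γ') ht0.le h2' h3' hsum hx2
  have hk : t * g d < t * (α' * g a + β' * g b + γ' * g c) := by
    exact mul_lt_mul_of_pos_left hlt ht0
  have : t * (α' * g a + β' * g b + γ' * g c) = α * g a + t * β' * g b + t * γ' * g c := by
    rw [← htα]; ring
  nlinarith

/-- which vertex is replaced -/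
theorem choice {α β γ α' β' γ' : ℝ} (hα : 0 < α) (hβ : 0 < β) (hγ : 0 < γ)
    (hs' : α' + β' + γ' = 1) :
    (0 < α' ∧ α * β' ≤ β * α' ∧ α * γ' ≤ γ * α') ∨
    (0 < β' ∧ β * γ' ≤ γ * β' ∧ β * α' ≤ α * β') ∨
    (0 < γ' ∧ γ * α' ≤ α * γ' ∧ γ * β' ≤ β * γ') := by
  have pos : ∀ u v w u' v' w' : ℝ, 0 < u → 0 < v → 0 < w → u' + v' + w' = 1 →
      u * v' ≤ v * u' → u * w' ≤ w * u' → 0 < u' := by
    intro u v w u' v' w' hu hv hw h h1 h2
    by_contra hcon
    push Not at hcon
    have k1 : v' ≤ 0 := by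
      by_contra hv'
      push Not at hv'
      nlinarith [mul_pos hu hv', mul_nonneg hv.le (neg_nonneg.2 hcon)]
    have k2 : w' ≤ 0 := by
      by_contra hw'
      push Not at hw'
      nlinarith [mul_pos hu hw', mul_nonneg hw.le (neg_nonneg.2 hcon)]
    linarith
  rcases le_total (α * β') (β * α') with h1 | h1
  · rcases le_total (α * γ') (γ * α') with h2 | h2
    · exact Or.inl ⟨pos α β γ α' β' γ' hα hβ hγ hs' h1 h2, h1, h2⟩
    · -- γ is smaller than α
      have h3 : γ * β' ≤ β * γ' := by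
        have e1 : γ * (α * β') ≤ γ * (β * α') := mul_le_mul_of_nonneg_left h1 hγ.le
        have e2 : β * (γ * α') ≤ β * (α * γ') := mul_le_mul_of_nonneg_left h2 hβ.le
        have e3 : α * (γ * β') ≤ α * (β * γ') := by nlinarith
        exact le_of_mul_le_mul_left e3 hα
      exact Or.inr (Or.inr ⟨pos γ α β γ' α' β' hγ hα hβ (by linarith) h2 h3, h2, h3⟩)
  · rcases le_total (β * γ') (γ * β') with h2 | h2
    · exact Or.inr (Or.inl ⟨pos β γ α β' γ' α' hβ hγ hα (by linarith) h2 h1, h2, h1⟩)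
    · have h3 : γ * α' ≤ α * γ' := by
        have e1 : γ * (β * α') ≤ γ * (α * β') := mul_le_mul_of_nonneg_left h1 hγ.le
        have e2 : α * (γ * β') ≤ α * (β * γ') := mul_le_mul_of_nonneg_left h2 hα.le
        have e3 : β * (γ * α') ≤ β * (α * γ') := by nlinarith
        exact le_of_mul_le_mul_left e3 hβ
      exact Or.inr (Or.inr ⟨pos γ α β γ' α' β' hγ hα hβ (by linarith) h3 h2, h3, h2⟩)

/-- a representation with three points of `S` (Caratheodory) -/
theorem exists_triple {S : Finset ℂ} {x : ℂ} (hx : x ∈ convexHull ℝ (S : Set ℂ))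
    (hgen : ∀ a ∈ S, ∀ b ∈ S, a ≠ b → cr (b - a) (x - a) ≠ 0) (hxS : x ∉ S) :
    ∃ a ∈ S, ∃ b ∈ S, ∃ c ∈ S, cr (b - a) (c - a) ≠ 0 ∧ ∃ α β γ : ℝ, 0 ≤ α ∧ 0 ≤ β ∧ 0 ≤ γ ∧
      α + β + γ = 1 ∧ x = α • a + β • b + γ • c := by
  classical
  rw [convexHull_eq_union] at hx
  simp only [mem_iUnion, exists_prop] at hx
  obtain ⟨t, htS, hti, hxt⟩ := hx
  have hcard : t.card ≤ 3 := by
    have h1 := hti.card_le_finrank_succ
    rw [Fintype.card_coe] at h1
    have h2 := Submodule.finrank_le (vectorSpan ℝ (range ((↑) : t → ℂ)))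
    rw [Complex.finrank_real_complex] at h2
    omega
  rw [Finset.mem_convexHull'] at hxt
  obtain ⟨w, hw0, hw1, hwx⟩ := hxt
  have htS' : ∀ y ∈ t, y ∈ S := fun y hy => by
    have := htS (Finset.mem_coe.2 hy)
    exact Finset.mem_coe.1 this
  rcases Nat.lt_or_ge t.card 3 with hlt | hge
  · exfalso
    have h012 : t.card = 0 ∨ t.card = 1 ∨ t.card = 2 := by omega
    rcases h012 with h | h | h
    · rw [Finset.card_eq_zero] at h
      rw [h] at hw1
      simp at hw1
    · obtain ⟨a, rfl⟩ := Finset.card_eq_one.1 h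
      simp only [Finset.sum_singleton] at hw1 hwx
      rw [hw1, one_smul] at hwx
      rw [← hwx] at hxS
      exact hxS (htS' a (by simp))
    · obtain ⟨a, b, hab, rfl⟩ := Finset.card_eq_two.1 h
      rw [Finset.sum_pair hab] at hw1 hwx
      apply hgen a (htS' a (by simp)) b (htS' b (by simp)) hab
      have hwa : w a = 1 - w b := by linarith
      rw [← hwx, hwa]
      simp only [cr, Complex.sub_re, Complex.sub_im, Complex.add_re, Complex.add_im,
        Complex.smul_re, Complex.smul_im, smul_eq_mul]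
      ring
  · have h3 : t.card = 3 := by omega
    obtain ⟨a, b, c, hab, hac, hbc, rfl⟩ := Finset.card_eq_three.1 h3
    have hsum : ∀ f : ℂ → ℝ, ∑ y ∈ ({a, b, c} : Finset ℂ), f y = f a + f b + f c := by
      intro f
      rw [Finset.sum_insert (by simp [hab, hac]), Finset.sum_pair hbc]; ring
    have hsumC : ∀ f : ℂ → ℂ, ∑ y ∈ ({a, b, c} : Finset ℂ), f y = f a + f b + f c := by
      intro f
      rw [Finset.sum_insert (by simp [hab, hac]), Finset.sum_pair hbc]; ring
    rw [hsum] at hw1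
    rw [hsumC] at hwx
    have haS := htS' a (by simp)
    have hbS := htS' b (by simp)
    have hcS := htS' c (by simp)
    refine ⟨a, haS, b, hbS, c, hcS, ?_, w a, w b, w c, hw0 a (by simp), hw0 b (by simp),
      hw0 c (by simp), hw1, hwx.symm⟩
    intro h0
    apply hgen a haS b hbS hab
    have e : cr (b - a) (x - a) = w c * cr (b - a) (c - a) := by
      have hwa : w a = 1 - w b - w c := by linarith
      rw [← hwx, hwa]
      simp only [cr, Complex.sub_re, Complex.sub_im, Complex.add_re, Complex.add_im,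
        Complex.smul_re, Complex.smul_im, smul_eq_mul]
      ring
    rw [e, h0, mul_zero]

/-- **EXC.**  Existence of a Delaunay triangle which contains `x` in its interior. -/
theorem exists_delaunay {S : Finset ℂ} (g : ℂ → ℝ) {x : ℂ}
    (hx : x ∈ convexHull ℝ (S : Set ℂ))
    (hgen : ∀ a ∈ S, ∀ b ∈ S, a ≠ b → cr (b - a) (x - a) ≠ 0) (hxS : x ∉ S) :
    ∃ a ∈ S, ∃ b ∈ S, ∃ c ∈ S, cr (b - a) (c - a) ≠ 0 ∧
      (∃ p q r : ℝ, p + q * a.re + r * a.im = g a ∧ p + q * b.re + r * b.im = g b ∧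
        p + q * c.re + r * c.im = g c ∧ ∀ s ∈ S, p + q * s.re + r * s.im ≤ g s) ∧
      ∃ α β γ : ℝ, 0 < α ∧ 0 < β ∧ 0 < γ ∧ α + β + γ = 1 ∧ x = α • a + β • b + γ • c := by
  classical
  -- the finite set of admissible triples
  let P : Finset (ℂ × ℂ × ℂ) := (S ×ˢ S ×ˢ S).filter fun T =>
    cr (T.2.1 - T.1) (T.2.2 - T.1) ≠ 0 ∧ ∃ α β γ : ℝ, 0 ≤ α ∧ 0 ≤ β ∧ 0 ≤ γ ∧
      α + β + γ = 1 ∧ x = α • T.1 + β • T.2.1 + γ • T.2.2
  have hmemP : ∀ T, T ∈ P ↔ (T.1 ∈ S ∧ T.2.1 ∈ S ∧ T.2.2 ∈ S) ∧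
      cr (T.2.1 - T.1) (T.2.2 - T.1) ≠ 0 ∧ ∃ α β γ : ℝ, 0 ≤ α ∧ 0 ≤ β ∧ 0 ≤ γ ∧
      α + β + γ = 1 ∧ x = α • T.1 + β • T.2.1 + γ • T.2.2 := by
    intro T
    simp only [P, Finset.mem_filter, Finset.mem_product]
  have hne : P.Nonempty := by
    obtain ⟨a, ha, b, hb, c, hc, hD, h⟩ := exists_triple hx hgen hxS
    exact ⟨(a, b, c), (hmemP _).2 ⟨⟨ha, hb, hc⟩, hD, h⟩⟩
  -- the value
  have hval : ∃ f : ℂ × ℂ × ℂ → ℝ, ∀ T ∈ P, ∀ α β γ : ℝ, α + β + γ = 1 →
      x = α • T.1 + β • T.2.1 + γ • T.2.2 →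
      f T = α * g T.1 + β * g T.2.1 + γ * g T.2.2 := by
    have : ∀ T : ℂ × ℂ × ℂ, ∃ v : ℝ, T ∈ P → ∀ α β γ : ℝ, α + β + γ = 1 →
        x = α • T.1 + β • T.2.1 + γ • T.2.2 →
        v = α * g T.1 + β * g T.2.1 + γ * g T.2.2 := by
      intro T
      by_cases hT : T ∈ P
      · obtain ⟨-, hD, α, β, γ, -, -, -, hs, hxx⟩ := (hmemP T).1 hT
        refine ⟨α * g T.1 + β * g T.2.1 + γ * g T.2.2, fun _ α' β' γ' hs' hx' => ?_⟩
        obtain ⟨e1, e2, e3⟩ := bary_unique hD hs hxx hs' hx'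
        rw [e1, e2, e3]
      · exact ⟨0, fun h => absurd h hT⟩
    choose f hf using this
    exact ⟨f, fun T hT => hf T hT⟩
  obtain ⟨f, hf⟩ := hval
  obtain ⟨T, hTP, hTmin⟩ := Finset.exists_min_image P f hne
  obtain ⟨⟨ha, hb, hc⟩, hD, α, β, γ, hα, hβ, hγ, hs, hxx⟩ := (hmemP T).1 hTP
  set a := T.1 with hadef
  set b := T.2.1 with hbdef
  set c := T.2.2 with hcdef
  have hV := hf T hTP α β γ hs hxx
  -- minimality
  have hmin : ∀ a ∈ S, ∀ b ∈ S, ∀ c ∈ S, cr (b - a) (c - a) ≠ 0 → ∀ α β γ : ℝ, 0 ≤ α →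
      0 ≤ β → 0 ≤ γ → α + β + γ = 1 → x = α • a + β • b + γ • c →
      f T ≤ α * g a + β * g b + γ * g c := by
    intro a ha b hb c hc hD α β γ hα hβ hγ hs hx
    have hm : (a, b, c) ∈ P := (hmemP _).2 ⟨⟨ha, hb, hc⟩, hD, α, β, γ, hα, hβ, hγ, hs, hx⟩
    rw [← hf (a, b, c) hm α β γ hs hx]
    exact hTmin _ hm
  have hD1 : cr (c - b) (a - b) ≠ 0 := by rw [cr_cyc]; exact hD
  have hD2 : cr (a - c) (b - c) ≠ 0 := by rw [cr_cyc]; exact hD1
  have hab : a ≠ b := by rintro h; apply hD; rw [h]; simp [cr]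
  have hbc : b ≠ c := by rintro h; apply hD; rw [h]; simp only [cr]; ring
  have hca : c ≠ a := by rintro h; apply hD; rw [h]; simp [cr]
  have xre : x.re = α * a.re + β * b.re + γ * c.re := by rw [hxx]; simp
  have xim : x.im = α * a.im + β * b.im + γ * c.im := by rw [hxx]; simp
  -- positivity of the coordinates
  have pα : 0 < α := by
    rcases hα.lt_or_eq with h | h
    · exact h
    · exfalso
      apply hgen b hb c hc hbc
      have hγ' : γ = 1 - β := by linarith
      simp only [cr, Complex.sub_re, Complex.sub_im]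
      rw [xre, xim, ← h, hγ']; ring
  have pβ : 0 < β := by
    rcases hβ.lt_or_eq with h | h
    · exact h
    · exfalso
      apply hgen c hc a ha hca
      have hγ' : γ = 1 - α := by linarith
      simp only [cr, Complex.sub_re, Complex.sub_im]
      rw [xre, xim, ← h, hγ']; ring
  have pγ : 0 < γ := by
    rcases hγ.lt_or_eq with h | h
    · exact h
    · exfalso
      apply hgen a ha b hb hab
      have hγ' : β = 1 - α := by linarith
      simp only [cr, Complex.sub_re, Complex.sub_im]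
      rw [xre, xim, ← h, hγ']; ring
  obtain ⟨p, q, r, h1, h2, h3⟩ := exists_aff hD (g a) (g b) (g c)
  refine ⟨a, ha, b, hb, c, hc, hD, ⟨p, q, r, h1, h2, h3, ?_⟩, α, β, γ, pα, pβ, pγ, hs, hxx⟩
  intro d hd
  by_contra hcon
  push Not at hcon
  obtain ⟨α', β', γ', hs', hd'⟩ := exists_bary hD d
  have hl := aff_comb (p := p) (q := q) (r := r) hs' hd'
  rw [h1, h2, h3] at hl
  rw [hl] at hcon
  rcases choice (α' := α') (β' := β') (γ' := γ') pα pβ pγ hs' with h | h | h
  · exact step hgen hmin hb hc hD pα hs hxx hV.symm hd hs' hd' hcon h.1 h.2.1 h.2.2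
  · refine step hgen hmin hc ha hD1 pβ (by linarith) (by rw [hxx]; abel) ?_ hd
      (α' := β') (β' := γ') (γ' := α') (by linarith) (by rw [hd']; abel) ?_ h.1 h.2.1 h.2.2
    · rw [hV]; ring
    · linarith
  · refine step hgen hmin ha hb hD2 pγ (by linarith) (by rw [hxx]; abel) ?_ hd
      (α' := γ') (β' := α') (γ' := β') (by linarith) (by rw [hd']; abel) ?_ h.1 h.2.1 h.2.2
    · rw [hV]; ring
    · linarith

/-- **DIS.**  Two Delaunay triangles with a common interior point have the same affine function at the vertices. -/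
theorem same_aff {S : Finset ℂ} {g : ℂ → ℝ} {x a b c a' b' c' : ℂ} {p q r p' q' r' : ℝ}
    {α β γ α' β' γ' : ℝ} (ha : a ∈ S) (hb : b ∈ S) (hc : c ∈ S) (ha' : a' ∈ S) (hb' : b' ∈ S)
    (hc' : c' ∈ S)
    (h1 : p + q * a.re + r * a.im = g a) (h2 : p + q * b.re + r * b.im = g b)
    (h3 : p + q * c.re + r * c.im = g c) (h4 : ∀ s ∈ S, p + q * s.re + r * s.im ≤ g s)
    (h1' : p' + q' * a'.re + r' * a'.im = g a') (h2' : p' + q' * b'.re + r' * b'.im = g b')
    (h3' : p' + q' * c'.re + r' * c'.im = g c') (h4' : ∀ s ∈ S, p' + q' * s.re + r' * s.im ≤ g s)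
    (hα : 0 < α) (hβ : 0 < β) (hγ : 0 < γ) (hs : α + β + γ = 1)
    (hx : x = α • a + β • b + γ • c)
    (hα' : 0 ≤ α') (hβ' : 0 ≤ β') (hγ' : 0 ≤ γ') (hs' : α' + β' + γ' = 1)
    (hx' : x = α' • a' + β' • b' + γ' • c') :
    p' + q' * a.re + r' * a.im = g a ∧ p' + q' * b.re + r' * b.im = g b ∧
      p' + q' * c.re + r' * c.im = g c := by
  have e1 := aff_comb (p := p) (q := q) (r := r) hs hx
  have e2 := aff_comb (p := p) (q := q) (r := r) hs' hx'
  have e3 := aff_comb (p := p') (q := q') (r := r') hs hx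
  have e4 := aff_comb (p := p') (q := q') (r := r') hs' hx'
  rw [h1, h2, h3] at e1
  rw [h1', h2', h3'] at e4
  have k1 := mul_le_mul_of_nonneg_left (h4 a' ha') hα'
  have k2 := mul_le_mul_of_nonneg_left (h4 b' hb') hβ'
  have k3 := mul_le_mul_of_nonneg_left (h4 c' hc') hγ'
  have m1 := mul_le_mul_of_nonneg_left (h4' a ha) hα.le
  have m2 := mul_le_mul_of_nonneg_left (h4' b hb) hβ.le
  have m3 := mul_le_mul_of_nonneg_left (h4' c hc) hγ.le
  refine ⟨?_, ?_, ?_⟩
  · have : α * (p' + q' * a.re + r' * a.im) = α * g a := by linarith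
    exact mul_left_cancel₀ hα.ne' this
  · have : β * (p' + q' * b.re + r' * b.im) = β * g b := by linarith
    exact mul_left_cancel₀ hβ.ne' this
  · have : γ * (p' + q' * c.re + r' * c.im) = γ * g c := by linarith
    exact mul_left_cancel₀ hγ.ne' this

/-- **DIS.**  With generic heights two Delaunay triangles with a common interior point have the same vertices. -/
theorem same_triangle {S : Finset ℂ} {g : ℂ → ℝ}
    (hG : ∀ a ∈ S, ∀ b ∈ S, ∀ c ∈ S, ∀ d ∈ S, cr (b - a) (c - a) ≠ 0 → d ≠ a → d ≠ b → d ≠ c →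
      ∀ p q r : ℝ, p + q * a.re + r * a.im = g a → p + q * b.re + r * b.im = g b →
        p + q * c.re + r * c.im = g c → p + q * d.re + r * d.im ≠ g d)
    {x a b c a' b' c' : ℂ} {p q r p' q' r' : ℝ}
    {α β γ α' β' γ' : ℝ} (ha : a ∈ S) (hb : b ∈ S) (hc : c ∈ S) (ha' : a' ∈ S) (hb' : b' ∈ S)
    (hc' : c' ∈ S) (hD : cr (b - a) (c - a) ≠ 0) (hD' : cr (b' - a') (c' - a') ≠ 0)
    (h1 : p + q * a.re + r * a.im = g a) (h2 : p + q * b.re + r * b.im = g b)
    (h3 : p + q * c.re + r * c.im = g c) (h4 : ∀ s ∈ S, p + q * s.re + r * s.im ≤ g s)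
    (h1' : p' + q' * a'.re + r' * a'.im = g a') (h2' : p' + q' * b'.re + r' * b'.im = g b')
    (h3' : p' + q' * c'.re + r' * c'.im = g c') (h4' : ∀ s ∈ S, p' + q' * s.re + r' * s.im ≤ g s)
    (hα : 0 < α) (hβ : 0 < β) (hγ : 0 < γ) (hs : α + β + γ = 1)
    (hx : x = α • a + β • b + γ • c)
    (hα' : 0 < α') (hβ' : 0 < β') (hγ' : 0 < γ') (hs' : α' + β' + γ' = 1)
    (hx' : x = α' • a' + β' • b' + γ' • c') :
    ({a, b, c} : Finset ℂ) = {a', b', c'} := by
  obtain ⟨m1, m2, m3⟩ := same_aff ha hb hc ha' hb' hc' h1 h2 h3 h4 h1' h2' h3' h4' hα hβ hγ hs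
    hx hα'.le hβ'.le hγ'.le hs' hx'
  obtain ⟨n1, n2, n3⟩ := same_aff ha' hb' hc' ha hb hc h1' h2' h3' h4' h1 h2 h3 h4 hα' hβ' hγ'
    hs' hx' hα.le hβ.le hγ.le hs hx
  have key : ∀ d ∈ S, p' + q' * d.re + r' * d.im = g d → d = a' ∨ d = b' ∨ d = c' := by
    intro d hd h
    by_contra hcon
    push Not at hcon
    exact hG a' ha' b' hb' c' hc' d hd hD' hcon.1 hcon.2.1 hcon.2.2 p' q' r' h1' h2' h3' h
  have key' : ∀ d ∈ S, p + q * d.re + r * d.im = g d → d = a ∨ d = b ∨ d = c := by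
    intro d hd h
    by_contra hcon
    push Not at hcon
    exact hG a ha b hb c hc d hd hD hcon.1 hcon.2.1 hcon.2.2 p q r h1 h2 h3 h
  apply Finset.Subset.antisymm
  · intro d hd
    simp only [Finset.mem_insert, Finset.mem_singleton] at hd ⊢
    rcases hd with rfl | rfl | rfl
    · exact key _ ha m1
    · exact key _ hb m2
    · exact key _ hc m3
  · intro d hd
    simp only [Finset.mem_insert, Finset.mem_singleton] at hd ⊢
    rcases hd with rfl | rfl | rfl
    · exact key' _ ha' n1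
    · exact key' _ hb' n2
    · exact key' _ hc' n3

end Pool.Agent.Helper88.KD
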