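import Pool.Agent.Helper26.KD.StT
import Pool.Agent.Helper26.CL.M_N1
import Pool.Agent.Helper73.CL.M_C1b

/-! # Project CB (MP_65faa7, bulk case), blocks K and T0, module Fv:
finite volume identity, locality, tails in the box -/

set_option autoImplicit false

open scoped BigOperators ENNReal Topology
open Pool.LE Pool.NL Filter

namespace Pool.KD

namespace FvM

theorem summ_abs {d : ℕ} {F : Zd d → ℝ} {K : ℝ} (h : M3 F K) : Summable (fun y => |F y|) := by
  refine Summable.of_nonneg_of_le (fun y => abs_nonneg _) (fun y => ?_) h.summ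
  have h1 : 0 ≤ nn y := Real.sqrt_nonneg _
  have h2 : (1 : ℝ) ≤ (1 + nn y) ^ 3 := one_le_pow₀ (by linarith)
  exact le_mul_of_one_le_left (abs_nonneg _) h2

theorem symF_neg {d : ℕ} {f : Zd d → ℝ} (hf : SymF f) (x : Zd d) : f (-x) = f x := by
  have h1 := hf 1 (fun _ => -1) x
  have h2 : sgp 1 (fun _ => -1) x = -x := by
    funext i
    unfold sgp
    simp
  rwa [h2] at h1

theorem summ_mul {d : ℕ} {F w : Zd d → ℝ} (hF : Summable (fun y => |F y|)) (hw : ∀ x, |w x| ≤ 1)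
    (φ : Zd d → Zd d) : Summable (fun y => F y * w (φ y)) := by
  refine Summable.of_norm_bounded hF fun y => ?_
  rw [Real.norm_eq_abs, abs_mul]
  exact mul_le_of_le_one_right (abs_nonneg _) (hw _)

theorem nb_coord {d : ℕ} {u v : Zd d} (h : u ∈ nb v) (i : Fin d) : |u i - v i| ≤ 1 := by
  obtain ⟨j, hj | hj⟩ := mem_nb.1 h
  · rw [hj, Pi.add_apply, Pi.single_apply, add_sub_cancel_left]
    split_ifs <;> simp
  · rw [hj, Pi.sub_apply, Pi.single_apply, sub_sub_cancel_left]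
    split_ifs <;> simp

/-- convolution with the step kernel -/
theorem conv_FZ {d : ℕ} {p : ℝ} {w : Zd d → ℝ} (hg : Summable (fun y => |gS d p y|))
    (hw : ∀ x, |w x| ≤ 1) (v : Zd d) :
    ∑' y, FZ d p y * w (v - y) = p * ∑ u ∈ nb v, ∑' z, gS d p z * w (u - z) := by
  have hs : ∀ u : Zd d, Summable (fun z => gS d p z * w (u - z)) := fun u =>
    summ_mul hg hw (fun z => u - z)
  have h1 : ∀ e : Zd d, HasSum (fun y => gS d p (y + e) * w (v - y)) (∑' z, gS d p z * w (v + e - z)) := by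
    intro e
    have h2 := (Equiv.hasSum_iff (Equiv.addRight e)).2 (hs (v + e)).hasSum
    refine h2.congr_fun ?_ |> fun h => h
    intro y
    change gS d p (y + e) * w (v - y) = gS d p (y + e) * w (v + e - (y + e))
    rw [add_sub_add_right_eq_sub]
  have h3 : HasSum (fun y => FZ d p y * w (v - y)) (p * ∑ i : Fin d,
      ((∑' z, gS d p z * w (v + Pi.single i 1 - z)) + ∑' z, gS d p z * w (v - Pi.single i 1 - z))) := by
    have h4 : ∀ i : Fin d, HasSum (fun y => gS d p (y + Pi.single i 1) * w (v - y) +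
        gS d p (y - Pi.single i 1) * w (v - y))
        ((∑' z, gS d p z * w (v + Pi.single i 1 - z)) + ∑' z, gS d p z * w (v - Pi.single i 1 - z)) := by
      intro i
      have h5 := h1 (-Pi.single i 1)
      simp only [← sub_eq_add_neg] at h5
      exact (h1 (Pi.single i 1)).add h5
    have h6 := (hasSum_sum (s := Finset.univ) fun i (_ : i ∈ Finset.univ) => h4 i).mul_left p
    refine h6.congr_fun ?_ |> fun h => h
    intro y
    unfold FZ
    rw [Pool.CN.C1bM.sum_nb, mul_assoc, Finset.sum_mul]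
    congr 1
    exact Finset.sum_congr rfl fun i _ => by ring
  rw [h3.tsum_eq, Pool.CN.C1bM.sum_nb]

/-- locality, the core estimate -/
theorem loc_core (hN1 : Pool.CN.StN1) (hN2 : Pool.CN.StN2) (hBox : StBox) (hBn : StBn) {d : ℕ}
    {K A : ℝ} (hE : EK d K A) (N R : ℕ) (w : Zd d → ℝ) (hR : 1 ≤ R) (hw : ∀ x, |w x| ≤ 1) (u : Zd d)
    (hu : ∀ y ∈ bx d (R - 1), u + y ∈ Bn d N) :
    |∑ x ∈ Bn d N, gT (ES (Bn d N)) (pH d) u x * w x - ∑' z, gS d (pH d) z * w (u - z)| ≤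
      1 / (R : ℝ) ^ 3 := by
  obtain ⟨-, -, hlat, -, -⟩ := hBn d N
  have hp0 : 0 ≤ pH d := hE.p0.le
  have hp1 : pH d ≤ 1 := le_trans hE.p1 (by norm_num)
  have hd1 : 1 ≤ d := le_trans (by norm_num) hE.hd
  have hR0 : (0 : ℝ) < R := by exact_mod_cast hR
  have h0 : (0 : Zd d) ∈ bx d (R - 1) := by
    rw [(hBox d).2.1]
    intro i
    rw [Pi.zero_apply, abs_zero]
    exact Int.natCast_nonneg _
  have huB : u ∈ Bn d N := by
    have := hu 0 h0
    rwa [add_zero] at this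
  obtain ⟨hz, -⟩ := hN2 d N (pH d) hp0 hp1 (hE.g3 _ hlat)
  obtain ⟨hs1, hs2⟩ := hN1 d N R (pH d) hd1 hp0 hp1 hE.g3z (hE.g3 _ hlat) hR u hu ⟨0, hd1⟩
  have hnn : ∀ x : Zd d, |gT (ES (Bn d N)) (pH d) u x - gS d (pH d) (x - u)| ≤
      1 / (R : ℝ) * (((R : ℝ) + |(x ⟨0, hd1⟩ : ℝ) - u ⟨0, hd1⟩|) *
        |gT (ES (Bn d N)) (pH d) u x - gS d (pH d) (x - u)|) := by
    intro x
    rw [← mul_assoc]
    refine le_mul_of_one_le_left (abs_nonneg _) ?_
    rw [one_div, ← div_eq_inv_mul, le_div_iff₀ hR0, one_mul]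
    exact le_add_of_nonneg_right (abs_nonneg _)
  have hsum : Summable (fun x => |gT (ES (Bn d N)) (pH d) u x - gS d (pH d) (x - u)|) :=
    Summable.of_nonneg_of_le (fun _ => abs_nonneg _) hnn (hs1.mul_left _)
  have hle : ∑' x, |gT (ES (Bn d N)) (pH d) u x - gS d (pH d) (x - u)| ≤ 1 / (R : ℝ) ^ 3 := by
    refine (hsum.tsum_le_tsum hnn (hs1.mul_left _)).trans ?_
    rw [tsum_mul_left]
    refine (mul_le_mul_of_nonneg_left hs2 (by positivity)).trans (le_of_eq ?_)
    field_simp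
  -- both sides as series
  have e1 : ∑ x ∈ Bn d N, gT (ES (Bn d N)) (pH d) u x * w x =
      ∑' x, gT (ES (Bn d N)) (pH d) u x * w x := by
    refine (tsum_eq_sum fun x hx => ?_).symm
    rw [hz u huB x hx, zero_mul]
  have s1 : Summable (fun x => gT (ES (Bn d N)) (pH d) u x * w x) := by
    refine summable_of_ne_finset_zero (s := Bn d N) fun x hx => ?_
    rw [hz u huB x hx, zero_mul]
  have hg := summ_abs hE.gM
  have e2 : ∀ z : Zd d, gS d (pH d) z * w (u - z) =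
      (fun x => gS d (pH d) (x - u) * w x) (Equiv.subLeft u z) := by
    intro z
    change gS d (pH d) z * w (u - z) = gS d (pH d) (u - z - u) * w (u - z)
    rw [sub_sub_cancel_left, symF_neg hE.gsym]
  have e3 : ∑' z, gS d (pH d) z * w (u - z) = ∑' x, gS d (pH d) (x - u) * w x := by
    rw [tsum_congr e2]
    exact (Equiv.subLeft u).tsum_eq (fun x => gS d (pH d) (x - u) * w x)
  have s2 : Summable (fun x => gS d (pH d) (x - u) * w x) := by
    have h1 := summ_mul hg hw (fun z => u - z)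
    have h2 : Summable ((fun x => gS d (pH d) (x - u) * w x) ∘ (Equiv.subLeft u)) :=
      h1.congr fun z => e2 z
    exact (Equiv.summable_iff (Equiv.subLeft u)).1 h2
  rw [e1, e3, ← s1.tsum_sub s2]
  have s3 : Summable (fun x => |gT (ES (Bn d N)) (pH d) u x * w x - gS d (pH d) (x - u) * w x|) :=
    (s1.sub s2).abs
  have h1 : |∑' x, (gT (ES (Bn d N)) (pH d) u x * w x - gS d (pH d) (x - u) * w x)| ≤
      ∑' x, |gT (ES (Bn d N)) (pH d) u x * w x - gS d (pH d) (x - u) * w x| :=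
    norm_tsum_le_tsum_norm (f := fun x => gT (ES (Bn d N)) (pH d) u x * w x - gS d (pH d) (x - u) * w x) s3
  refine h1.trans ((s3.tsum_le_tsum (fun x => ?_) hsum).trans hle)
  rw [← sub_mul, abs_mul]
  exact mul_le_of_le_one_right (abs_nonneg _) (hw _)

/-- the step kernel of the box at a point whose neighbours are in the box -/
theorem KT_eq {d : ℕ} (N : ℕ) (w : Zd d → ℝ) (v : Zd d) :
    KT d N w v = pH d * ∑ u ∈ Bn d N ∩ nb v, ∑ x ∈ Bn d N, gT (ES (Bn d N)) (pH d) u x * w x := by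
  unfold KT
  congr 1
  exact Finset.sum_ite_mem (Bn d N) (nb v) (fun u => ∑ x ∈ Bn d N, gT (ES (Bn d N)) (pH d) u x * w x)

/-- the tail, the core estimate -/
theorem tb_core (hN2 : Pool.CN.StN2) (hGLs : Pool.CN.StGLs) (hBox : StBox) (hBn : StBn) {d : ℕ}
    {K A : ℝ} (hE : EK d K A) (N R : ℕ) (w : Zd d → ℝ) (q : ℝ) (hR : 1 ≤ R) (hq : 0 ≤ q)
    (hw : ∀ x, |w x| ≤ 1) (u : Zd d) (huB : u ∈ Bn d N) (hu : ∀ x, x - u ∈ bx d (R - 1) → |w x| ≤ q) :
    |∑ x ∈ Bn d N, gT (ES (Bn d N)) (pH d) u x * w x| ≤ 5 / 4 * q + 1 / 4 / (R : ℝ) ^ 3 := by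
  classical
  obtain ⟨-, -, hlat, -, -⟩ := hBn d N
  obtain ⟨-, hbx, -⟩ := hBox d
  have hp0 : 0 ≤ pH d := hE.p0.le
  have hp1 : pH d ≤ 1 := le_trans hE.p1 (by norm_num)
  have hR0 : (0 : ℝ) < R := by exact_mod_cast hR
  have hG3 := hE.g3 _ hlat
  obtain ⟨-, hm, -⟩ := hN2 d N (pH d) hp0 hp1 hG3
  -- far points
  have hfar : ∀ x : Zd d, x - u ∉ bx d (R - 1) →
      (1 + (R : ENNReal)) ^ 3 * ENNReal.ofReal |gT (ES (Bn d N)) (pH d) u x| ≤
        ∑' m : ℕ, (1 + (m : ENNReal)) ^ 3 *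
          ENNReal.ofReal |gL (ES (Bn d N)) (pH d) u x m - ind (m = 0 ∧ x = u)| := by
    intro x hx
    unfold gT
    refine (mul_le_mul_right (Pool.CN.N1M.abs_tsum _) _).trans ?_
    rw [← ENNReal.tsum_mul_left]
    refine ENNReal.tsum_le_tsum fun m => ?_
    by_cases hmR : R ≤ m
    · have h1 : ind (m = 0 ∧ x = u) = 0 := by
        unfold ind
        rw [if_neg (by omega)]
      rw [h1, sub_zero]
      gcongr
    · have h1 : gL (ES (Bn d N)) (pH d) u x m = 0 := by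
        refine hGLs d _ _ m u x hlat fun h => hx ?_
        rw [hbx] at h ⊢
        intro i
        refine (h i).trans ?_
        have h2 : m ≤ R - 1 := by omega
        exact_mod_cast h2
      rw [h1, abs_zero, ENNReal.ofReal_zero, mul_zero]
      exact zero_le
  have hfar2 : ∑ x ∈ (Bn d N).filter (fun x => x - u ∉ bx d (R - 1)), |gT (ES (Bn d N)) (pH d) u x| ≤
      1 / 4 / (R : ℝ) ^ 3 := by
    have h1 : (1 + (R : ENNReal)) ^ 3 * ENNReal.ofReal (∑ x ∈ (Bn d N).filter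
        (fun x => x - u ∉ bx d (R - 1)), |gT (ES (Bn d N)) (pH d) u x|) ≤ ENNReal.ofReal (1 / 4) := by
      rw [ENNReal.ofReal_sum_of_nonneg (fun _ _ => abs_nonneg _), Finset.mul_sum]
      refine (Finset.sum_le_sum fun x hx => hfar x (Finset.mem_filter.1 hx).2).trans ?_
      exact (ENNReal.sum_le_tsum _).trans (hG3 u)
    have h2 : (1 + (R : ENNReal)) ^ 3 = ENNReal.ofReal ((1 + (R : ℝ)) ^ 3) := by
      rw [ENNReal.ofReal_pow (by positivity), ENNReal.ofReal_add zero_le_one hR0.le,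
        ENNReal.ofReal_one, ENNReal.ofReal_natCast]
    rw [h2, ← ENNReal.ofReal_mul (by positivity), ENNReal.ofReal_le_ofReal_iff (by norm_num)] at h1
    rw [le_div_iff₀ (by positivity)]
    refine le_trans ?_ h1
    rw [mul_comm]
    refine mul_le_mul_of_nonneg_right ?_ (Finset.sum_nonneg fun _ _ => abs_nonneg _)
    exact pow_le_pow_left₀ hR0.le (by linarith) 3
  have hnear : ∀ x ∈ Bn d N, |gT (ES (Bn d N)) (pH d) u x * w x| ≤
      |gT (ES (Bn d N)) (pH d) u x| * q +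
        (if x - u ∉ bx d (R - 1) then |gT (ES (Bn d N)) (pH d) u x| else 0) := by
    intro x _
    rw [abs_mul]
    by_cases hx : x - u ∈ bx d (R - 1)
    · rw [if_neg (by simpa using hx), add_zero]
      exact mul_le_mul_of_nonneg_left (hu x hx) (abs_nonneg _)
    · rw [if_pos hx]
      have h1 : |gT (ES (Bn d N)) (pH d) u x| * |w x| ≤ |gT (ES (Bn d N)) (pH d) u x| :=
        mul_le_of_le_one_right (abs_nonneg _) (hw x)
      have h2 : 0 ≤ |gT (ES (Bn d N)) (pH d) u x| * q := mul_nonneg (abs_nonneg _) hq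
      linarith
  refine (Finset.abs_sum_le_sum_abs _ _).trans ((Finset.sum_le_sum hnear).trans ?_)
  rw [Finset.sum_add_distrib, ← Finset.sum_mul, ← Finset.sum_filter]
  have h3 := mul_le_mul_of_nonneg_right (hm u huB) hq
  linarith

end FvM

open FvM

/-- the finite volume identity -/
theorem hId (hN2 : Pool.CN.StN2) (hBn : StBn) : StId := by
  classical
  intro d K A hE N w v hv
  obtain ⟨-, -, hlat, -, -⟩ := hBn d N
  have hp0 : 0 ≤ pH d := hE.p0.le
  have hp1 : pH d ≤ 1 := le_trans hE.p1 (by norm_num)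
  obtain ⟨-, -, -, h4, -⟩ := hN2 d N (pH d) hp0 hp1 (hE.g3 _ hlat)
  have h5 : ∑ x ∈ Bn d N, cp (ES (Bn d N)) (pH d) v x * w x =
      ∑ x ∈ Bn d N, gT (ES (Bn d N)) (pH d) v x * w x +
        ∑ b ∈ Bn d N, cp (ES (Bn d N)) (pH d) v b * KT d N w b := by
    have h6 : ∀ x ∈ Bn d N, cp (ES (Bn d N)) (pH d) v x * w x =
        gT (ES (Bn d N)) (pH d) v x * w x + ∑ b ∈ Bn d N, ∑ u ∈ Bn d N, (if u ∈ nb b then
          cp (ES (Bn d N)) (pH d) v b * pH d * gT (ES (Bn d N)) (pH d) u x else 0) * w x := by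
      intro x hx
      rw [h4 v hv x hx, add_mul, Finset.sum_mul]
      congr 1
      exact Finset.sum_congr rfl fun b _ => Finset.sum_mul _ _ _
    rw [Finset.sum_congr rfl h6, Finset.sum_add_distrib]
    congr 1
    rw [Finset.sum_comm]
    refine Finset.sum_congr rfl fun b _ => ?_
    rw [Finset.sum_comm]
    unfold KT
    rw [← mul_assoc, Finset.mul_sum]
    refine Finset.sum_congr rfl fun u _ => ?_
    by_cases h : u ∈ nb b
    · simp only [if_pos h]
      rw [Finset.mul_sum]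
      exact Finset.sum_congr rfl fun x _ => by ring
    · simp only [if_neg h, zero_mul, mul_zero, Finset.sum_const_zero]
  have h7 : ∑ b ∈ Bn d N, cp (ES (Bn d N)) (pH d) v b * (w b - KT d N w b) =
      ∑ b ∈ Bn d N, cp (ES (Bn d N)) (pH d) v b * w b -
        ∑ b ∈ Bn d N, cp (ES (Bn d N)) (pH d) v b * KT d N w b := by
    rw [← Finset.sum_sub_distrib]
    exact Finset.sum_congr rfl fun b _ => by ring
  rw [h7, h5]
  ring

/-- locality -/
theorem hLoc (hN1 : Pool.CN.StN1) (hN2 : Pool.CN.StN2) (hBox : StBox) (hBn : StBn) : StLoc := by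
  intro d K A hE N R w hR hw v hv
  have hbx := (hBox d).2.1
  have hmono : ∀ y : Zd d, y ∈ bx d (R - 1) → y ∈ bx d R := by
    intro y hy
    rw [hbx] at hy ⊢
    intro i
    refine (hy i).trans ?_
    have : R - 1 ≤ R := Nat.sub_le _ _
    exact_mod_cast this
  have hR0 : (0 : ℝ) < R := by exact_mod_cast hR
  refine ⟨?_, loc_core hN1 hN2 hBox hBn hE N R w hR hw v fun y hy => hv y (hmono y hy)⟩
  have hdeep : ∀ u ∈ nb v, ∀ y ∈ bx d (R - 1), u + y ∈ Bn d N := by
    intro u hu y hy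
    have h1 : u + y = v + (u - v + y) := by abel
    rw [h1]
    refine hv _ ?_
    rw [hbx] at hy ⊢
    intro i
    rw [Pi.add_apply, Pi.sub_apply]
    have h2 := abs_add_le (u i - v i) (y i)
    have h3 := nb_coord hu i
    have h4 := hy i
    have h5 : ((R - 1 : ℕ) : ℤ) = (R : ℤ) - 1 := by
      rw [Nat.cast_sub hR]
      rfl
    omega
  have hsub : nb v ⊆ Bn d N := by
    intro u hu
    have h1 := hdeep u hu 0 (by
      rw [hbx]
      intro i
      rw [Pi.zero_apply, abs_zero]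
      exact Int.natCast_nonneg _)
    rwa [add_zero] at h1
  rw [KT_eq, Finset.inter_eq_right.2 hsub, conv_FZ (summ_abs hE.gM) hw, ← mul_sub,
    ← Finset.sum_sub_distrib, abs_mul, abs_of_pos hE.p0]
  have h1 : |∑ u ∈ nb v, (∑ x ∈ Bn d N, gT (ES (Bn d N)) (pH d) u x * w x -
      ∑' z, gS d (pH d) z * w (u - z))| ≤ ∑ _u ∈ nb v, 1 / (R : ℝ) ^ 3 :=
    (Finset.abs_sum_le_sum_abs _ _).trans (Finset.sum_le_sum fun u hu =>
      loc_core hN1 hN2 hBox hBn hE N R w hR hw u (hdeep u hu))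
  rw [Finset.sum_const, (hBox d).2.2.2.2.2.2.2.2.2.2.2.1 v, nsmul_eq_mul] at h1
  refine (mul_le_mul_of_nonneg_left h1 hE.p0.le).trans ?_
  have h2 : pH d * (((2 * d : ℕ) : ℝ) * (1 / (R : ℝ) ^ 3)) = 2 * (d : ℝ) * pH d / (R : ℝ) ^ 3 := by
    push_cast
    ring
  rw [h2]
  exact div_le_div_of_nonneg_right hE.dp (by positivity)

/-- tails in the box -/
theorem hTb (hN2 : Pool.CN.StN2) (hGLs : Pool.CN.StGLs) (hBox : StBox) (hBn : StBn) : StTb := by
  intro d K A hE N R w q hR hq hw v hv hvq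
  have hbx := (hBox d).2.1
  have hR0 : (0 : ℝ) < R := by exact_mod_cast hR
  rw [KT_eq, abs_mul, abs_of_pos hE.p0]
  have h1 : |∑ u ∈ Bn d N ∩ nb v, ∑ x ∈ Bn d N, gT (ES (Bn d N)) (pH d) u x * w x| ≤
      ∑ _u ∈ nb v, (5 / 4 * q + 1 / 4 / (R : ℝ) ^ 3) := by
    refine (Finset.abs_sum_le_sum_abs _ _).trans ((Finset.sum_le_sum fun u hu => ?_).trans
      (Finset.sum_le_sum_of_subset_of_nonneg Finset.inter_subset_right fun _ _ _ => by positivity))
    rw [Finset.mem_inter] at hu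
    refine tb_core hN2 hGLs hBox hBn hE N R w q hR hq hw u hu.1 fun x hx => ?_
    have h2 : x = v + (x - v) := by abel
    rw [h2]
    refine hvq _ ?_
    rw [hbx] at hx ⊢
    intro i
    have h3 := hx i
    rw [Pi.sub_apply] at h3 ⊢
    have h4 := nb_coord hu.2 i
    have h5 := abs_sub_le (x i) (u i) (v i)
    have h6 : ((R - 1 : ℕ) : ℤ) = (R : ℤ) - 1 := by
      rw [Nat.cast_sub hR]
      rfl
    omega
  rw [Finset.sum_const, (hBox d).2.2.2.2.2.2.2.2.2.2.2.1 v, nsmul_eq_mul] at h1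
  refine (mul_le_mul_of_nonneg_left h1 hE.p0.le).trans ?_
  have h2 : pH d * (((2 * d : ℕ) : ℝ) * (5 / 4 * q + 1 / 4 / (R : ℝ) ^ 3)) =
      2 * (d : ℝ) * pH d * (5 / 4 * q + 1 / 4 / (R : ℝ) ^ 3) := by
    push_cast
    ring
  rw [h2]
  have h3 : 0 ≤ 1 / (R : ℝ) ^ 3 := by positivity
  have h4 : 1 / 4 / (R : ℝ) ^ 3 = 1 / 4 * (1 / (R : ℝ) ^ 3) := by ring
  have h5 : 3 / (R : ℝ) ^ 3 = 3 * (1 / (R : ℝ) ^ 3) := by ring
  rw [h4, h5]
  have h6 := mul_le_mul_of_nonneg_right hE.dp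
    (show 0 ≤ 5 / 4 * q + 1 / 4 * (1 / (R : ℝ) ^ 3) by positivity)
  linarith

end Pool.KD
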