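import Pool.Agent.Helper97.CB.Defs

/-! # Project KD: the area of a triangle -/

set_option autoImplicit false

open MeasureTheory Set Filter

namespace Pool.Agent.Helper88.KD

open Helper97.CB

/-- the standard triangle -/
def stdT : Set ℂ := {z : ℂ | 0 ≤ z.re ∧ 0 ≤ z.im ∧ z.re + z.im ≤ 1}

theorem vol_stdT : volume stdT ≤ ENNReal.ofReal (1 / 2) := by
  have hmp := Complex.volume_preserving_equiv_real_prod
  set S : Set (ℝ × ℝ) := {p | 0 ≤ p.1 ∧ 0 ≤ p.2 ∧ p.1 + p.2 ≤ 1} with hS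
  have hSc : IsClosed S := by
    refine IsClosed.inter (isClosed_le continuous_const continuous_fst)
      (IsClosed.inter (isClosed_le continuous_const continuous_snd)
        (isClosed_le (continuous_fst.add continuous_snd) continuous_const))
  have e1 : stdT = Complex.measurableEquivRealProd ⁻¹' S := by
    ext z
    simp [stdT, hS, Complex.measurableEquivRealProd_apply]
  rw [e1, hmp.measure_preimage hSc.measurableSet.nullMeasurableSet, Measure.volume_eq_prod,
    Measure.prod_apply hSc.measurableSet]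
  have h2 : ∀ x : ℝ, volume (Prod.mk x ⁻¹' S) ≤
      (Icc (0 : ℝ) 1).indicator (fun x => ENNReal.ofReal (1 - x)) x := by
    intro x
    by_cases hx : x ∈ Icc (0 : ℝ) 1
    · rw [indicator_of_mem hx]
      have : Prod.mk x ⁻¹' S ⊆ Icc 0 (1 - x) := by
        intro y hy
        obtain ⟨_, h2, h3⟩ := hy
        simp only at h2 h3
        exact ⟨h2, by linarith⟩
      calc volume (Prod.mk x ⁻¹' S) ≤ volume (Icc 0 (1 - x)) := measure_mono this
        _ = ENNReal.ofReal (1 - x) := by rw [Real.volume_Icc, sub_zero]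
    · have : Prod.mk x ⁻¹' S = ∅ := by
        ext y
        simp only [mem_preimage, mem_empty_iff_false, iff_false]
        rintro ⟨h1, h2, h3⟩
        simp only at h1 h2 h3
        exact hx ⟨h1, by linarith⟩
      rw [this]; simp
  calc ∫⁻ x, volume (Prod.mk x ⁻¹' S)
      ≤ ∫⁻ x, (Icc (0 : ℝ) 1).indicator (fun x => ENNReal.ofReal (1 - x)) x :=
        lintegral_mono h2
    _ = ∫⁻ x in Icc (0 : ℝ) 1, ENNReal.ofReal (1 - x) := lintegral_indicator measurableSet_Icc _
    _ = ENNReal.ofReal (∫ x in Icc (0 : ℝ) 1, (1 - x)) := by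
        rw [ofReal_integral_eq_lintegral_ofReal]
        · exact (continuous_const.sub continuous_id).integrableOn_Icc
        · refine (ae_restrict_iff' measurableSet_Icc).2 (Eventually.of_forall fun x hx => ?_)
          simp only [Pi.zero_apply]
          linarith [hx.2]
    _ = ENNReal.ofReal (1 / 2) := by
        congr 1
        rw [integral_Icc_eq_integral_Ioc, ← intervalIntegral.integral_of_le zero_le_one,
          intervalIntegral.integral_sub (by simp) (by simp), integral_id]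
        simp
        norm_num

/-- the linear map `x + i y ↦ x u + y w` -/
noncomputable def lm (u w : ℂ) : ℂ →ₗ[ℝ] ℂ :=
  Complex.reLm.smulRight u + Complex.imLm.smulRight w

theorem lm_apply (u w z : ℂ) : lm u w z = z.re • u + z.im • w := by
  simp [lm]

theorem det_lm (u w : ℂ) : LinearMap.det (lm u w) = cr u w := by
  rw [← LinearMap.det_toMatrix Complex.basisOneI, Matrix.det_fin_two]
  simp [LinearMap.toMatrix_apply, lm_apply, cr]
  ring

theorem hull_sub (a b c : ℂ) :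
    convexHull ℝ {a, b, c} ⊆ (fun z => a + z) '' (lm (b - a) (c - a) '' stdT) := by
  have hconv : Convex ℝ stdT := by
    intro x hx y hy s t hs ht hst
    obtain ⟨x1, x2, x3⟩ := hx
    obtain ⟨y1, y2, y3⟩ := hy
    simp only [stdT, mem_ofPred_eq, Complex.add_re, Complex.add_im, Complex.real_smul,
      Complex.mul_re, Complex.mul_im, Complex.ofReal_re, Complex.ofReal_im, zero_mul, sub_zero,
      add_zero]
    refine ⟨by positivity, by positivity, ?_⟩
    nlinarith
  have hc : Convex ℝ ((fun z => a + z) '' (lm (b - a) (c - a) '' stdT)) :=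
    (hconv.linear_image _).translate a
  refine convexHull_min ?_ hc
  intro x hx
  rcases hx with rfl | rfl | rfl
  · exact ⟨0, ⟨0, by simp [stdT], by simp⟩, by simp⟩
  · exact ⟨x - a, ⟨1, by simp [stdT], by simp [lm_apply]⟩, by simp⟩
  · exact ⟨x - a, ⟨Complex.I, by simp [stdT], by simp [lm_apply]⟩, by simp⟩

/-- the area of a triangle is at most half of the cross product -/
theorem vol_hull_le (a b c : ℂ) :
    volume (convexHull ℝ {a, b, c}) ≤ ENNReal.ofReal (|cr (b - a) (c - a)| / 2) := by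
  calc volume (convexHull ℝ {a, b, c})
      ≤ volume ((fun z => a + z) '' (lm (b - a) (c - a) '' stdT)) := measure_mono (hull_sub a b c)
    _ = volume (lm (b - a) (c - a) '' stdT) := by
        rw [image_add_left]
        exact measure_preimage_add _ _ _
    _ = ENNReal.ofReal |cr (b - a) (c - a)| * volume stdT := by
        rw [Measure.addHaar_image_linearMap, det_lm]
    _ ≤ ENNReal.ofReal |cr (b - a) (c - a)| * ENNReal.ofReal (1 / 2) := by
        gcongr; exact vol_stdT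
    _ = ENNReal.ofReal (|cr (b - a) (c - a)| / 2) := by
        rw [← ENNReal.ofReal_mul (abs_nonneg _)]
        congr 1; ring

/-- twice the area of a triangle inscribed in a disk of radius `ρ` -/
theorem cr_le {a b c v : ℂ} {ρ : ℝ} (ha : ‖a - v‖ ≤ ρ) (hb : ‖b - v‖ ≤ ρ) (hc : ‖c - v‖ ≤ ρ) :
    |cr (b - a) (c - a)| ≤ 3 * Real.sqrt 3 / 2 * ρ ^ 2 := by
  have h3 : Real.sqrt 3 ^ 2 = 3 := Real.sq_sqrt (by norm_num)
  have h3p : 0 < Real.sqrt 3 := Real.sqrt_pos.2 (by norm_num)
  set q := Real.sqrt 3 with hq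
  have hρ : 0 ≤ ρ := (norm_nonneg _).trans ha
  have key : ∀ z : ℂ, ‖z‖ ≤ ρ → z.re ^ 2 + z.im ^ 2 ≤ ρ ^ 2 := by
    intro z hz
    have h1 : ‖z‖ ^ 2 ≤ ρ ^ 2 := by gcongr
    rw [← Complex.normSq_eq_norm_sq, Complex.normSq_apply] at h1
    nlinarith
  have k1 := key _ ha
  have k2 := key _ hb
  have k3 := key _ hc
  simp only [Complex.sub_re, Complex.sub_im] at k1 k2 k3
  have e : cr (b - a) (c - a) = (a.re - v.re) * (b.im - v.im) - (a.im - v.im) * (b.re - v.re) +
      ((b.re - v.re) * (c.im - v.im) - (b.im - v.im) * (c.re - v.re)) +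
      ((c.re - v.re) * (a.im - v.im) - (c.im - v.im) * (a.re - v.re)) := by
    simp only [cr, Complex.sub_re, Complex.sub_im]; ring
  rw [e]
  generalize a.re - v.re = x1 at *
  generalize a.im - v.im = y1 at *
  generalize b.re - v.re = x2 at *
  generalize b.im - v.im = y2 at *
  generalize c.re - v.re = x3 at *
  generalize c.im - v.im = y3 at *
  set C := x1 * y2 - y1 * x2 + (x2 * y3 - y2 * x3) + (x3 * y1 - y3 * x1) with hC
  have b0 : (x1 ^ 2 + y1 ^ 2) + (x2 ^ 2 + y2 ^ 2) + (x3 ^ 2 + y3 ^ 2) - (x1 * x2 + y1 * y2) -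
      (x2 * x3 + y2 * y3) - (x3 * x1 + y3 * y1) ≤ 9 / 2 * ρ ^ 2 := by
    nlinarith [sq_nonneg (x1 + x2 + x3), sq_nonneg (y1 + y2 + y3)]
  have b1 : q * C ≤ 9 / 2 * ρ ^ 2 := by
    have : (x1 - (x2 + x3) / 2 - q * (y2 - y3) / 2) ^ 2 +
        (y1 - (y2 + y3) / 2 + q * (x2 - x3) / 2) ^ 2 =
        (x1 ^ 2 + y1 ^ 2) + (x2 ^ 2 + y2 ^ 2) + (x3 ^ 2 + y3 ^ 2) - (x1 * x2 + y1 * y2) -
        (x2 * x3 + y2 * y3) - (x3 * x1 + y3 * y1) - q * C := by
      rw [hC]
      linear_combination ((x2 - x3) ^ 2 / 4 + (y2 - y3) ^ 2 / 4) * h3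
    nlinarith [sq_nonneg (x1 - (x2 + x3) / 2 - q * (y2 - y3) / 2),
      sq_nonneg (y1 - (y2 + y3) / 2 + q * (x2 - x3) / 2)]
  have b2 : -(q * C) ≤ 9 / 2 * ρ ^ 2 := by
    have : (x1 - (x2 + x3) / 2 + q * (y2 - y3) / 2) ^ 2 +
        (y1 - (y2 + y3) / 2 - q * (x2 - x3) / 2) ^ 2 =
        (x1 ^ 2 + y1 ^ 2) + (x2 ^ 2 + y2 ^ 2) + (x3 ^ 2 + y3 ^ 2) - (x1 * x2 + y1 * y2) -
        (x2 * x3 + y2 * y3) - (x3 * x1 + y3 * y1) + q * C := by
      rw [hC]
      linear_combination ((x2 - x3) ^ 2 / 4 + (y2 - y3) ^ 2 / 4) * h3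
    nlinarith [sq_nonneg (x1 - (x2 + x3) / 2 + q * (y2 - y3) / 2),
      sq_nonneg (y1 - (y2 + y3) / 2 - q * (x2 - x3) / 2)]
  rw [abs_le]
  constructor
  · have : q * (q * C) ≥ q * (-(9 / 2 * ρ ^ 2)) := by
      apply mul_le_mul_of_nonneg_left _ h3p.le; linarith
    nlinarith
  · have : q * (q * C) ≤ q * (9 / 2 * ρ ^ 2) := mul_le_mul_of_nonneg_left b1 h3p.le
    nlinarith

/-- the area of a triangle inscribed in a disk of radius `ρ` -/
theorem vol_tri_le {a b c v : ℂ} {ρ : ℝ} (ha : ‖a - v‖ ≤ ρ) (hb : ‖b - v‖ ≤ ρ)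
    (hc : ‖c - v‖ ≤ ρ) :
    volume (convexHull ℝ {a, b, c}) ≤ ENNReal.ofReal (3 * Real.sqrt 3 / 4 * ρ ^ 2) := by
  refine (vol_hull_le a b c).trans (ENNReal.ofReal_le_ofReal ?_)
  have := cr_le ha hb hc
  linarith

end Pool.Agent.Helper88.KD
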